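import Pool.Agent.H380.AG.Stm
import Pool.Graph.R_seed8.W376.AG.Sum

/-!
# The Poisson kernel has mean one (MP_937c79_an, task MEAN)
-/

set_option autoImplicit false

open MeasureTheory Metric Set Filter Topology
open scoped ENNReal RealInnerProductSpace

namespace Pool.Agent.H286.AG

open Pool.Agent.W778.AG Pool.Agent.H380.AG

theorem Pg_cont (n k : ℕ) : Continuous (Pg n k) := by
  have h : ∀ k, Continuous (Pg n k) ∧ Continuous (Pg n (k + 1)) := by
    intro k
    induction k with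
    | zero =>
      refine ⟨?_, ?_⟩
      · have : Pg n 0 = fun _ => 1 := by funext t; rw [Pg]
        rw [this]; exact continuous_const
      · have : Pg n (0 + 1) = fun t => t := by funext t; simp only [zero_add]; rw [Pg]
        rw [this]; exact continuous_id
    | succ k ih =>
      refine ⟨ih.2, ?_⟩
      have : Pg n (k + 1 + 1) = fun t => ((2 * (k : ℝ) + n) * t * Pg n (k + 1) t -
          ((k : ℝ) + 1) * Pg n k t) / ((k : ℝ) + n - 1) := by
        funext t
        rw [Pg]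
      rw [this]
      have := ih.1
      have := ih.2
      fun_prop
  exact (h k).1

theorem Pg_one (n : ℕ) (hn : 3 ≤ n) (k : ℕ) : Pg n k 1 = 1 := by
  have h : ∀ k, Pg n k 1 = 1 ∧ Pg n (k + 1) 1 = 1 := by
    intro k
    induction k with
    | zero => refine ⟨by rw [Pg], by rw [zero_add, Pg]⟩
    | succ k ih =>
      refine ⟨ih.2, ?_⟩
      rw [Pg, ih.1, ih.2]
      have hn' : (3 : ℝ) ≤ n := by exact_mod_cast hn
      have : (k : ℝ) + n - 1 ≠ 0 := by
        have : (0:ℝ) ≤ k := Nat.cast_nonneg k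
        linarith
      field_simp
      ring
  exact (h k).1

theorem dk_zero (n : ℕ) (hn : 3 ≤ n) : dk n 0 = 1 := by
  have hn' : (3 : ℝ) ≤ n := by exact_mod_cast hn
  have h2 : (n : ℝ) - 2 ≠ 0 := by
    intro h
    linarith
  unfold dk
  rw [Nat.choose_zero_right, Nat.cast_zero, Nat.cast_one, mul_zero, zero_add, mul_one]
  exact div_self h2

theorem dk_nonneg (n k : ℕ) (hn : 3 ≤ n) : 0 ≤ dk n k := by
  have hn' : (3 : ℝ) ≤ n := by exact_mod_cast hn
  have hk : (0 : ℝ) ≤ k := Nat.cast_nonneg k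
  unfold dk
  refine mul_nonneg (div_nonneg ?_ ?_) (Nat.cast_nonneg _)
  · linarith
  · linarith

theorem t_MEAN (h1 : S_ORTH) (h2 : S_POLAR) (h3 : S_SUM) (hB : S_BD) : S_MEAN := by
  intro n hn r hr0 hr1 v hv g hg hgi
  obtain ⟨σ, hU, hprod⟩ := h2 n (by omega)
  obtain ⟨⟨hP, hS⟩, -⟩ := id hU
  obtain ⟨m, rfl⟩ : ∃ m, n = m + 3 := ⟨n - 3, by omega⟩
  have hPg : ∀ (k : ℕ) {t : ℝ}, |t| ≤ 1 → |Pg (m + 3) k t| ≤ 1 := fun k t ht =>
    Pool.Agent.W376.AG.Pg_le hB m k ht
  have hin : ∀ u : En (m + 3), ‖u‖ = 1 → |⟪v, u⟫| ≤ 1 := by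
    intro u hu
    have := abs_real_inner_le_norm v u
    rwa [hv, hu, mul_one] at this
  have hae : ∀ᵐ u ∂σ, ‖u‖ = 1 := by
    rw [ae_iff]
    refine measure_mono_null (fun u hu => ?_) hS
    simpa using hu
  have hmeas : Measurable (fun u : En (m + 3) => pk (m + 3) r ⟪v, u⟫) := by
    unfold pk
    have hc : Continuous fun u : En (m + 3) =>
        Real.sqrt (1 - 2 * r * ⟪v, u⟫ + r ^ 2) ^ (m + 3) := by fun_prop
    exact measurable_const.div hc.measurable
  have hpk0 : ∀ u : En (m + 3), 0 ≤ pk (m + 3) r ⟪v, u⟫ := by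
    intro u
    unfold pk
    refine div_nonneg ?_ (pow_nonneg (Real.sqrt_nonneg _) _)
    nlinarith
  have hprod' := hprod (fun u => ENNReal.ofReal (pk (m + 3) r ⟪v, u⟫)) g
    (ENNReal.measurable_ofReal.comp hmeas) hg
  rw [hprod']
  -- terms of the series
  set F : ℕ → En (m + 3) → ℝ := fun k u => r ^ k * dk (m + 3) k * Pg (m + 3) k ⟪v, u⟫ with hF
  have hsum1 : HasSum (fun k : ℕ => r ^ k * dk (m + 3) k) (pk (m + 3) r 1) := by
    have := h3 (m + 3) hn r hr0 hr1 1 (by simp)
    simpa only [Pg_one (m + 3) hn, mul_one] using this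
  have hFc : ∀ k, Continuous (F k) := by
    intro k
    have := Pg_cont (m + 3) k
    simp only [hF]
    fun_prop
  have hFb : ∀ k, ∀ u : En (m + 3), ‖u‖ = 1 → ‖F k u‖ ≤ r ^ k * dk (m + 3) k := by
    intro k u hu
    have h := hPg k (hin u hu)
    have h0 : 0 ≤ r ^ k * dk (m + 3) k := mul_nonneg (pow_nonneg hr0 _) (dk_nonneg _ _ hn)
    rw [Real.norm_eq_abs]
    simp only [hF]
    rw [abs_mul, abs_of_nonneg h0]
    calc r ^ k * dk (m + 3) k * |Pg (m + 3) k ⟪v, u⟫| ≤ r ^ k * dk (m + 3) k * 1 := by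
          gcongr
      _ = _ := mul_one _
  have hFi : ∀ k, Integrable (F k) σ := by
    intro k
    refine Integrable.of_bound (hFc k).aestronglyMeasurable (r ^ k * dk (m + 3) k) ?_
    filter_upwards [hae] with u hu
    exact hFb k u hu
  have hFn : ∀ k, ∫ u, ‖F k u‖ ∂σ ≤ r ^ k * dk (m + 3) k := by
    intro k
    calc ∫ u, ‖F k u‖ ∂σ ≤ ∫ _, r ^ k * dk (m + 3) k ∂σ := by
          refine integral_mono_ae (hFi k).norm (integrable_const _) ?_
          filter_upwards [hae] with u hu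
          exact hFb k u hu
      _ = r ^ k * dk (m + 3) k := by simp
  have hFs : Summable fun k => ∫ u, ‖F k u‖ ∂σ :=
    Summable.of_nonneg_of_le (fun k => integral_nonneg fun u => norm_nonneg _) hFn hsum1.summable
  have hser := hasSum_integral_of_summable_integral_norm hFi hFs
  have hpt : ∀ᵐ u ∂σ, ∑' k, F k u = pk (m + 3) r ⟪v, u⟫ := by
    filter_upwards [hae] with u hu
    exact (h3 (m + 3) hn r hr0 hr1 _ (hin u hu)).tsum_eq
  rw [integral_congr_ae hpt] at hser
  have hterm : ∀ k, ∫ u, F k u ∂σ = if k = 0 then 1 else 0 := by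
    intro k
    simp only [hF]
    rw [integral_const_mul]
    split_ifs with hk
    · subst hk
      have : ∀ t, Pg (m + 3) 0 t = 1 := fun t => by rw [Pg]
      simp only [this]
      rw [dk_zero _ hn]
      simp
    · rw [h1 (m + 3) hn σ hU k (by omega) v hv, mul_zero]
  simp only [hterm] at hser
  have hone : ∫ u, pk (m + 3) r ⟪v, u⟫ ∂σ = 1 := by
    refine hser.unique ?_
    exact hasSum_ite_eq 0 1
  have hint : Integrable (fun u => pk (m + 3) r ⟪v, u⟫) σ := by
    by_contra hcon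
    rw [integral_undef hcon] at hone
    exact zero_ne_one hone
  have hl : ∫⁻ u, ENNReal.ofReal (pk (m + 3) r ⟪v, u⟫) ∂σ = 1 := by
    rw [← ofReal_integral_eq_lintegral_ofReal hint (Filter.Eventually.of_forall hpk0), hone,
      ENNReal.ofReal_one]
  rw [hl, one_mul]

end Pool.Agent.H286.AG
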